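import Pool.Agent.helper50.MA.Spec1

/-!
# PROJECT ma, module A2: suprema and limits of continuous psh functions
-/

set_option autoImplicit false

open MeasureTheory Set Filter Topology Complex
open scoped ContDiff Real

namespace MAP

theorem A2_circle_mem (x ξ : C2) (θ : ℝ) : x + cexp (θ * I) • ξ ∈ disc x ξ :=
  ⟨cexp (θ * I), by rw [Complex.norm_exp_ofReal_mul_I], rfl⟩

theorem A2_centre_mem (x ξ : C2) : x ∈ disc x ξ :=
  ⟨0, by simp, by simp⟩

theorem A2_disc_compact (x ξ : C2) : IsCompact (disc x ξ) := by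
  have h : disc x ξ = (fun ζ : ℂ => x + ζ • ξ) '' Metric.closedBall 0 1 := by
    ext y
    constructor
    · rintro ⟨ζ, hζ, rfl⟩
      exact ⟨ζ, by simpa using hζ, rfl⟩
    · rintro ⟨ζ, hζ, rfl⟩
      exact ⟨ζ, by simpa using hζ, rfl⟩
  rw [h]
  exact (isCompact_closedBall (0 : ℂ) 1).image (by fun_prop)

theorem A2_cont {U : Set C2} {u : C2 → ℝ} (hu : ContinuousOn u U) {x ξ : C2}
    (hd : disc x ξ ⊆ U) : Continuous (fun θ : ℝ => u (x + cexp (θ * I) • ξ)) :=
  hu.comp_continuous (by fun_prop) fun θ => hd (A2_circle_mem x ξ θ)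

theorem A2_mean_le {U : Set C2} {u v : C2 → ℝ} (hu : ContinuousOn u U) (hv : ContinuousOn v U)
    {x ξ : C2} (hd : disc x ξ ⊆ U) {c : ℝ} (h : ∀ y ∈ disc x ξ, u y ≤ v y + c) :
    mean u x ξ ≤ mean v x ξ + c := by
  have h1 : ∫ θ in (0 : ℝ)..(2 * π), u (x + cexp (θ * I) • ξ) ≤
      ∫ θ in (0 : ℝ)..(2 * π), (v (x + cexp (θ * I) • ξ) + c) := by
    apply intervalIntegral.integral_mono Real.two_pi_pos.le
    · exact (A2_cont hu hd).intervalIntegrable _ _
    · exact ((A2_cont hv hd).add continuous_const).intervalIntegrable _ _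
    · intro θ
      exact h _ (A2_circle_mem x ξ θ)
  rw [intervalIntegral.integral_add ((A2_cont hv hd).intervalIntegrable _ _)
    (continuous_const.intervalIntegrable _ _), intervalIntegral.integral_const] at h1
  unfold mean
  have h2 : (2 * π)⁻¹ * ∫ θ in (0 : ℝ)..(2 * π), u (x + cexp (θ * I) • ξ) ≤
      (2 * π)⁻¹ * ((∫ θ in (0 : ℝ)..(2 * π), v (x + cexp (θ * I) • ξ)) + (2 * π - 0) • c) :=
    mul_le_mul_of_nonneg_left h1 (inv_nonneg.2 Real.two_pi_pos.le)
  refine h2.trans (le_of_eq ?_)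
  rw [mul_add, sub_zero, smul_eq_mul, ← mul_assoc, inv_mul_cancel₀ Real.two_pi_pos.ne', one_mul]

theorem A2 : A2_stmt := by
  refine ⟨?_, ?_⟩
  · intro U ι v u _ hU hv hu hlub
    refine ⟨hu, fun x ξ hd => ?_⟩
    have hx : x ∈ U := hd (A2_centre_mem x ξ)
    refine (hlub x hx).2 ?_
    rintro _ ⟨i, rfl⟩
    have h1 := (hv i).2 x ξ hd
    have h2 : mean (v i) x ξ ≤ mean u x ξ + 0 := by
      refine A2_mean_le (hv i).1 hu hd fun y hy => ?_
      rw [add_zero]
      exact (hlub y (hd hy)).1 ⟨i, rfl⟩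
    show v i x ≤ mean u x ξ
    linarith
  · intro U w u hU hw hconv
    have hloc : TendstoLocallyUniformlyOn w u atTop U :=
      (tendstoLocallyUniformlyOn_iff_forall_isCompact hU).2 fun K hK hKc => hconv K hK hKc
    have hu : ContinuousOn u U :=
      hloc.continuousOn (Frequently.of_forall fun n => (hw n).1)
    refine ⟨hu, fun x ξ hd => ?_⟩
    have hc := hconv (disc x ξ) hd (A2_disc_compact x ξ)
    rw [Metric.tendstoUniformlyOn_iff] at hc
    refine le_of_forall_pos_le_add fun ε hε => ?_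
    obtain ⟨n, hn⟩ := (hc (ε / 2) (by positivity)).exists
    have h1 : ∀ y ∈ disc x ξ, |u y - w n y| < ε / 2 := fun y hy => by
      have := hn y hy
      rwa [Real.dist_eq] at this
    have h2 := (hw n).2 x ξ hd
    have h3 : mean (w n) x ξ ≤ mean u x ξ + ε / 2 := by
      refine A2_mean_le (hw n).1 hu hd fun y hy => ?_
      have := (abs_lt.1 (h1 y hy)).1
      linarith
    have h4 := (abs_lt.1 (h1 x (A2_centre_mem x ξ))).2
    linarith

end MAP
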