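import Mathlib
import Pool.Agent.helper50.MA.Spec2
import Pool.Agent.helper43.MA.S5
import Pool.Agent.helper4.MA.C2

/-!
# Project ma, module R2: gluing of local potentials by a regularised maximum.
-/

set_option autoImplicit false

open MeasureTheory Set Filter Topology Complex
open scoped ContDiff Real

namespace MAP

noncomputable section

theorem R2_mean_avg (u : C2 → ℝ) (x ξ : C2) :
    mean u x ξ = ⨍ θ in (0 : ℝ)..(2 * π), u (x + cexp (θ * I) • ξ) := by
  rw [interval_average_eq, sub_zero, smul_eq_mul]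
  rfl

/-- a convex monotone function of psh functions is psh -/
theorem R2_jensen {n : ℕ} (m : (Fin n → ℝ) → ℝ) (hmc : Continuous m) (hm : ConvexOn ℝ univ m)
    (hmono : Monotone m) (U : Set C2) (g : Fin n → C2 → ℝ) (hg : ∀ i, PshOn U (g i)) :
    PshOn U (fun y => m (fun i => g i y)) := by
  refine ⟨hmc.comp_continuousOn (continuousOn_pi.2 fun i => (hg i).1), fun x ξ hd => ?_⟩
  have hin : ∀ θ : ℝ, x + cexp (θ * I) • ξ ∈ U := fun θ =>
    hd ⟨cexp (θ * I), by rw [norm_exp_ofReal_mul_I], rfl⟩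
  have hcirc : Continuous (fun θ : ℝ => x + cexp (θ * I) • ξ) := by fun_prop
  have hGi : ∀ i, Continuous (fun θ : ℝ => g i (x + cexp (θ * I) • ξ)) := fun i =>
    (hg i).1.comp_continuous hcirc hin
  have hG : Continuous (fun θ : ℝ => (fun i => g i (x + cexp (θ * I) • ξ) : Fin n → ℝ)) :=
    continuous_pi hGi
  have hpos : (0 : ℝ) < 2 * π := by positivity
  have : NeZero (volume.restrict (uIoc (0 : ℝ) (2 * π))) := by
    refine ⟨?_⟩
    rw [Ne, Measure.restrict_eq_zero, uIoc_of_le hpos.le, Real.volume_Ioc, sub_zero, ENNReal.ofReal_eq_zero]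
    exact not_le.2 hpos
  have : IsFiniteMeasure (volume.restrict (uIoc (0 : ℝ) (2 * π))) := by
    rw [uIoc_of_le hpos.le]
    infer_instance
  have hI : Integrable (fun θ : ℝ => (fun i => g i (x + cexp (θ * I) • ξ) : Fin n → ℝ))
      (volume.restrict (uIoc (0 : ℝ) (2 * π))) := by
    rw [uIoc_of_le hpos.le]
    exact hG.integrableOn_Ioc
  have hI2 : Integrable (m ∘ (fun θ : ℝ => (fun i => g i (x + cexp (θ * I) • ξ) : Fin n → ℝ)))
      (volume.restrict (uIoc (0 : ℝ) (2 * π))) := by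
    rw [uIoc_of_le hpos.le]
    exact (hmc.comp hG).integrableOn_Ioc
  have hJ := hm.map_average_le hmc.continuousOn isClosed_univ (Eventually.of_forall fun _ => mem_univ _) hI hI2
  have hav : ∀ i, (⨍ θ in (0 : ℝ)..(2 * π), (fun i => g i (x + cexp (θ * I) • ξ) : Fin n → ℝ)) i = mean (g i) x ξ := by
    intro i
    rw [R2_mean_avg, interval_average_eq, interval_average_eq]
    rw [Pi.smul_apply]
    congr 1
    rw [intervalIntegral.integral_of_le hpos.le, intervalIntegral.integral_of_le hpos.le]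
    rw [eval_integral]
    intro j
    exact (hGi j).integrableOn_Ioc
  calc m (fun i => g i x) ≤ m (⨍ θ in (0 : ℝ)..(2 * π), (fun i => g i (x + cexp (θ * I) • ξ) : Fin n → ℝ)) := by
        apply hmono
        intro i
        rw [hav i]
        exact (hg i).2 x ξ hd
    _ ≤ ⨍ θ in (0 : ℝ)..(2 * π), m (fun i => g i (x + cexp (θ * I) • ξ)) := hJ
    _ = mean (fun y => m (fun i => g i y)) x ξ := (R2_mean_avg (fun y => m (fun i => g i y)) x ξ).symm

/-- change several small entries -/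
theorem R2_repl {n : ℕ} (m : (Fin n → ℝ) → ℝ) (σ : ℝ)
    (hm : ∀ t t' : Fin n → ℝ, ∀ i k, (∀ l, l ≠ i → t' l = t l) → t i + σ ≤ t k → t' i + σ ≤ t k → m t' = m t)
    (S : Finset (Fin n)) : ∀ t t' : Fin n → ℝ, (∀ l, l ∉ S → t' l = t l) →
    (∀ i ∈ S, ∃ k, k ∉ S ∧ t i + σ ≤ t k ∧ t' i + σ ≤ t k) → m t' = m t := by
  induction S using Finset.induction_on with
  | empty =>
    intro t t' h1 _
    have : t' = t := funext fun l => h1 l (Finset.notMem_empty l)
    rw [this]
  | insert a S ha ih =>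
    intro t t' h1 h2
    have e1 : m (Function.update t' a (t a)) = m t := by
      apply ih
      · intro l hl
        by_cases hla : l = a
        · rw [hla, Function.update_self]
        · rw [Function.update_of_ne hla]
          apply h1
          rw [Finset.mem_insert, not_or]
          exact ⟨hla, hl⟩
      · intro i hi
        obtain ⟨k, hk, hk1, hk2⟩ := h2 i (Finset.mem_insert_of_mem hi)
        refine ⟨k, fun h => hk (Finset.mem_insert_of_mem h), hk1, ?_⟩
        have hia : i ≠ a := fun h => ha (h ▸ hi)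
        rw [Function.update_of_ne hia]
        exact hk2
    obtain ⟨k, hk, hk1, hk2⟩ := h2 a (Finset.mem_insert_self a S)
    have hka : k ≠ a := fun h => hk (h ▸ Finset.mem_insert_self a S)
    have hkt : t' k = t k := h1 k hk
    have e2 : m t' = m (Function.update t' a (t a)) := by
      apply hm (Function.update t' a (t a)) t' a k
      · intro l hl
        rw [Function.update_of_ne hl]
      · rw [Function.update_self, Function.update_of_ne hka, hkt]
        exact hk1
      · rw [Function.update_of_ne hka, hkt]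
        exact hk2
    rw [e2, e1]

theorem R2_lap_congr {u v : C2 → ℝ} {y : C2} (h : u =ᶠ[𝓝 y] v) (ξ : C2) : lap u y ξ = lap v y ξ := by
  have h1 : fderiv ℝ u =ᶠ[𝓝 y] fderiv ℝ v := h.fderiv
  unfold lap D2
  rw [h1.fderiv_eq]

theorem R2_lap_add (u v : C2 → ℝ) (y ξ : C2) (hu : ContDiffAt ℝ 2 u y) (hv : ContDiffAt ℝ 2 v y) :
    lap (fun z => u z + v z) y ξ = lap u y ξ + lap v y ξ := by
  have e : (fun z => u z + v z) = fun z => 1 * u z + 1 * v z := by funext z; ring
  rw [e, C2_lapcomb u v y 1 1 hu hv ξ]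
  ring

theorem R2_lap_const_add (u : C2 → ℝ) (c : ℝ) (y ξ : C2) :
    lap (fun z => c + u z) y ξ = lap u y ξ := by
  have e : fderiv ℝ (fun z => c + u z) = fderiv ℝ u := by
    funext z
    exact fderiv_const_add c
  unfold lap D2
  rw [e]

theorem R2_open {X : Type} [TopologicalSpace X] (K : KS X) (i : Fin K.n) (x0 : X)
    (h1 : x0 ∈ (K.e i).source) (h2 : K.e i x0 ∈ bal (K.c i) (K.R i)) :
    ∀ᶠ x in 𝓝 x0, x ∈ (K.e i).source ∧ K.e i x ∈ bal (K.c i) (K.R i) := by
  have hc : Continuous nsq := by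
    unfold nsq
    exact ((continuous_fst.norm).pow 2).add ((continuous_snd.norm).pow 2)
  have ho : IsOpen (bal (K.c i) (K.R i)) :=
    isOpen_lt (hc.comp (continuous_id.sub continuous_const)) continuous_const
  have h3 : ∀ᶠ x in 𝓝 x0, x ∈ (K.e i).source := (K.e i).open_source.mem_nhds h1
  have h4 : ∀ᶠ x in 𝓝 x0, K.e i x ∈ bal (K.c i) (K.R i) :=
    ((K.e i).continuousAt h1).eventually_mem (ho.mem_nhds h2)
  exact h3.and h4

theorem R2_closed {X : Type} [TopologicalSpace X] [T2Space X] (K : KS X) (i : Fin K.n) :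
    IsClosed {x | x ∈ (K.e i).source ∧ K.e i x ∈ cbal (K.c i) (K.R i)} := by
  have e : {x | x ∈ (K.e i).source ∧ K.e i x ∈ cbal (K.c i) (K.R i)} =
      (K.e i).symm '' (cbal (K.c i) (K.R i)) := by
    ext x
    constructor
    · rintro ⟨hx1, hx2⟩
      exact ⟨K.e i x, hx2, (K.e i).left_inv hx1⟩
    · rintro ⟨y, hy, rfl⟩
      have hyt := K.ball_sub i hy
      refine ⟨(K.e i).map_target hyt, ?_⟩
      rw [(K.e i).right_inv hyt]
      exact hy
  rw [e]
  exact ((S5_cbal_compact _ _).image_of_continuousOn ((K.e i).continuousOn_symm.mono (K.ball_sub i))).isClosed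

open Classical in
/-- the vector of local values -/
def R2_T {X : Type} [TopologicalSpace X] (K : KS X) (v : Fin K.n → C2 → ℝ) (M : ℝ) (x : X) : Fin K.n → ℝ :=
  fun i => if x ∈ (K.e i).source ∧ K.e i x ∈ cbal (K.c i) (K.R i) then v i (K.e i x) else -M

open Classical in
/-- the vector of local values with the active set of the point `x0` -/
def R2_T' {X : Type} [TopologicalSpace X] (K : KS X) (v : Fin K.n → C2 → ℝ) (M : ℝ) (x0 x : X) : Fin K.n → ℝ :=
  fun i => if x0 ∈ (K.e i).source ∧ K.e i x0 ∈ bal (K.c i) (K.R i) then v i (K.e i x) else -M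

theorem R2 (hR1 : R1_stmt) (hS3 : S3_stmt) (hA3 : A3_stmt) (hA6 : A6_stmt) : R2_stmt := by
  classical
  intro X _ _ _ K W v σ hσ hWo hKW hWt hvs hvl hsph
  obtain ⟨-, -, hconst, -, hloc, hPS, -, -⟩ := hS3 X K
  rcases isEmpty_or_nonempty X with hX | hX
  · exact ⟨fun _ => 0, hPS _ (hconst 0) (fun x => hX.elim x), fun x => hX.elim x⟩
  obtain ⟨x1⟩ := hX
  obtain ⟨i1, -, -⟩ := K.cover x1
  have hn : 0 < K.n := lt_of_le_of_lt (Nat.zero_le _) i1.2
  obtain ⟨m, hms, hmc, hmm, hm1, hm2, hm3, hm4⟩ := hR1 K.n σ hn hσ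
  -- bound
  have hb : ∀ i, ∃ C : ℝ, ∀ y ∈ cbal (K.c i) (K.R i), ‖v i y‖ ≤ C := fun i =>
    (S5_cbal_compact _ _).exists_bound_of_continuousOn ((hvs i).continuousOn.mono (hKW i))
  choose C hC using hb
  set M : ℝ := ∑ i, |C i| + σ with hM
  have hMb : ∀ i, ∀ y ∈ cbal (K.c i) (K.R i), -M + σ ≤ v i y := by
    intro i y hy
    have e1 := (abs_le.1 ((hC i y hy).trans (le_abs_self _))).1
    have e2 : |C i| ≤ ∑ i, |C i| := Finset.single_le_sum (fun j _ => abs_nonneg (C j)) (Finset.mem_univ i)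
    linarith
  have hbc : ∀ i, bal (K.c i) (K.R i) ⊆ cbal (K.c i) (K.R i) := by
    intro i y hy
    have e1 : nsq (y - K.c i) < (K.R i) ^ 2 := hy
    exact e1.le
  have hcov : ∀ x, ∃ i, x ∈ (K.e i).source ∧ K.e i x ∈ bal (K.c i) (K.R i) := by
    intro x
    obtain ⟨i, h1, h2⟩ := K.cover x
    refine ⟨i, h1, ?_⟩
    have e1 : nsq (K.e i x - K.c i) < (K.R i / 2) ^ 2 := h2
    have e2 := K.R_pos i
    show nsq (K.e i x - K.c i) < (K.R i) ^ 2
    nlinarith
  set h : X → ℝ := fun x => m (R2_T K v M x) with hh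
  -- local representation
  have hrep : ∀ x0, ∀ᶠ x in 𝓝 x0, h x = m (R2_T' K v M x0 x) ∧
      ∀ i, x0 ∈ (K.e i).source → K.e i x0 ∈ bal (K.c i) (K.R i) → x ∈ (K.e i).source ∧ K.e i x ∈ bal (K.c i) (K.R i) := by
    intro x0
    -- (a)
    have ha : ∀ᶠ x in 𝓝 x0, ∀ i, x0 ∈ (K.e i).source → K.e i x0 ∈ bal (K.c i) (K.R i) →
        x ∈ (K.e i).source ∧ K.e i x ∈ bal (K.c i) (K.R i) := by
      apply eventually_all.2
      intro i
      by_cases hi : x0 ∈ (K.e i).source ∧ K.e i x0 ∈ bal (K.c i) (K.R i)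
      · filter_upwards [R2_open K i x0 hi.1 hi.2] with x hx _ _ using hx
      · exact Eventually.of_forall fun x h1 h2 => absurd ⟨h1, h2⟩ hi
    -- (c)
    have hcc : ∀ᶠ x in 𝓝 x0, ∀ i, ¬ (x0 ∈ (K.e i).source ∧ K.e i x0 ∈ cbal (K.c i) (K.R i)) →
        ¬ (x ∈ (K.e i).source ∧ K.e i x ∈ cbal (K.c i) (K.R i)) := by
      apply eventually_all.2
      intro i
      by_cases hi : x0 ∈ (K.e i).source ∧ K.e i x0 ∈ cbal (K.c i) (K.R i)
      · exact Eventually.of_forall fun x h1 => absurd hi h1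
      · have := (R2_closed K i).isOpen_compl.mem_nhds (x := x0) hi
        filter_upwards [this] with x hx _ using hx
    -- (b)
    have hbb : ∀ᶠ x in 𝓝 x0, ∀ i, (x0 ∈ (K.e i).source ∧ K.e i x0 ∈ cbal (K.c i) (K.R i)) →
        ¬ (x0 ∈ (K.e i).source ∧ K.e i x0 ∈ bal (K.c i) (K.R i)) →
        ∃ j, x0 ∈ (K.e j).source ∧ K.e j x0 ∈ bal (K.c j) (K.R j) ∧ v i (K.e i x) + 2 * σ < v j (K.e j x) := by
      apply eventually_all.2
      intro i
      by_cases hi : (x0 ∈ (K.e i).source ∧ K.e i x0 ∈ cbal (K.c i) (K.R i)) ∧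
        ¬ (x0 ∈ (K.e i).source ∧ K.e i x0 ∈ bal (K.c i) (K.R i))
      · obtain ⟨⟨hi1, hi2⟩, hi3⟩ := hi
        have hs : K.e i x0 ∈ sph (K.c i) (K.R i) := by
          have e1 : nsq (K.e i x0 - K.c i) ≤ (K.R i) ^ 2 := hi2
          have e2 : ¬ nsq (K.e i x0 - K.c i) < (K.R i) ^ 2 := fun h => hi3 ⟨hi1, h⟩
          exact le_antisymm e1 (not_lt.1 e2)
        obtain ⟨j, hj1, hj2, hj3⟩ := hsph i x0 hi1 hs
        have c1 : ContinuousAt (fun x => v i (K.e i x) + 2 * σ) x0 := by
          have e1 : ContinuousAt (v i) (K.e i x0) :=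
            (hvs i).continuousOn.continuousAt ((hWo i).mem_nhds (hKW i hi2))
          exact (ContinuousAt.comp (f := K.e i) e1 ((K.e i).continuousAt hi1)).add continuousAt_const
        have c2 : ContinuousAt (fun x => v j (K.e j x)) x0 := by
          have e1 : ContinuousAt (v j) (K.e j x0) :=
            (hvs j).continuousOn.continuousAt ((hWo j).mem_nhds (hKW j (hbc j hj2)))
          exact ContinuousAt.comp (f := K.e j) e1 ((K.e j).continuousAt hj1)
        filter_upwards [c1.eventually_lt c2 hj3] with x hx _ _ using ⟨j, hj1, hj2, hx⟩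
      · exact Eventually.of_forall fun x h1 h2 => absurd ⟨h1, h2⟩ hi
    filter_upwards [ha, hcc, hbb] with x hxa hxc hxb
    refine ⟨?_, hxa⟩
    show m (R2_T K v M x) = m (R2_T' K v M x0 x)
    symm
    apply R2_repl m σ hm4 (Finset.univ.filter fun i => (x0 ∈ (K.e i).source ∧ K.e i x0 ∈ cbal (K.c i) (K.R i)) ∧
      ¬ (x0 ∈ (K.e i).source ∧ K.e i x0 ∈ bal (K.c i) (K.R i)))
    · intro l hl
      rw [Finset.mem_filter, not_and] at hl
      have hl' := hl (Finset.mem_univ l)
      by_cases hA : x0 ∈ (K.e l).source ∧ K.e l x0 ∈ bal (K.c l) (K.R l)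
      · have e1 := hxa l hA.1 hA.2
        unfold R2_T' R2_T
        rw [if_pos hA, if_pos ⟨e1.1, hbc l e1.2⟩]
      · have hB : ¬ (x0 ∈ (K.e l).source ∧ K.e l x0 ∈ cbal (K.c l) (K.R l)) := fun hB => hl' ⟨hB, hA⟩
        have e1 := hxc l hB
        unfold R2_T' R2_T
        rw [if_neg hA, if_neg e1]
    · intro i hi
      rw [Finset.mem_filter] at hi
      obtain ⟨j, hj1, hj2, hj3⟩ := hxb i hi.2.1 hi.2.2
      refine ⟨j, ?_, ?_, ?_⟩
      · rw [Finset.mem_filter, not_and]
        intro _ hj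
        exact hj.2 ⟨hj1, hj2⟩
      · have e1 := hxa j hj1 hj2
        have e2 := hMb j _ (hbc j e1.2)
        unfold R2_T
        rw [if_pos (show x ∈ (K.e j).source ∧ K.e j x ∈ cbal (K.c j) (K.R j) from ⟨e1.1, hbc j e1.2⟩)]
        split_ifs with hq
        · linarith
        · exact e2
      · have e1 := hxa j hj1 hj2
        have e2 := hMb j _ (hbc j e1.2)
        unfold R2_T' R2_T
        rw [if_pos (show x ∈ (K.e j).source ∧ K.e j x ∈ cbal (K.c j) (K.R j) from ⟨e1.1, hbc j e1.2⟩), if_neg hi.2.2]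
        exact e2
  -- the chart picture
  have hchart : ∀ x0, ∀ i, x0 ∈ (K.e i).source → ∃ N : Set C2, IsOpen N ∧ K.e i x0 ∈ N ∧ N ⊆ (K.e i).target ∧
      (∀ y ∈ N, h ((K.e i).symm y) = m (R2_T' K v M x0 ((K.e i).symm y)) ∧
        ∀ j, x0 ∈ (K.e j).source → K.e j x0 ∈ bal (K.c j) (K.R j) →
          (K.e i).symm y ∈ (K.e j).source ∧ K.e j ((K.e i).symm y) ∈ bal (K.c j) (K.R j)) := by
    intro x0 i hi
    obtain ⟨O, hO1, hO2, hO3⟩ := eventually_nhds_iff.1 (hrep x0)
    refine ⟨(K.e i).target ∩ (K.e i).symm ⁻¹' O, (K.e i).isOpen_inter_preimage_symm hO2, ?_, inter_subset_left, ?_⟩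
    · refine ⟨(K.e i).map_source hi, ?_⟩
      show (K.e i).symm (K.e i x0) ∈ O
      rw [(K.e i).left_inv hi]
      exact hO3
    · rintro y ⟨-, hy⟩
      exact hO1 _ hy
  -- the local vector in a chart
  have hvec : ∀ x0, ∀ i, x0 ∈ (K.e i).source → ∃ N : Set C2, IsOpen N ∧ K.e i x0 ∈ N ∧ N ⊆ (K.e i).target ∧
      (∀ y ∈ N, h ((K.e i).symm y) = m (R2_T' K v M x0 ((K.e i).symm y))) ∧
      (∀ j, ContDiffOn ℝ ∞ (fun y => R2_T' K v M x0 ((K.e i).symm y) j) N) ∧
      (∀ j, ∀ y ∈ N, ∀ ξ, 0 ≤ lap (fun y => R2_T' K v M x0 ((K.e i).symm y) j + K.ρ i y) y ξ) := by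
    intro x0 i hi
    obtain ⟨N, hN1, hN2, hN3, hN4⟩ := hchart x0 i hi
    refine ⟨N, hN1, hN2, hN3, fun y hy => (hN4 y hy).1, ?_, ?_⟩
    · intro j
      by_cases hj : x0 ∈ (K.e j).source ∧ K.e j x0 ∈ bal (K.c j) (K.R j)
      · have e0 : (fun y => R2_T' K v M x0 ((K.e i).symm y) j) = fun y => v j (K.e j ((K.e i).symm y)) := by
          funext y
          unfold R2_T'
          rw [if_pos hj]
        rw [e0]
        have e1 : ContDiffOn ℝ ∞ (fun y => K.e j ((K.e i).symm y)) N := by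
          have e2 : ContDiffOn ℂ ∞ (fun y => K.e j ((K.e i).symm y)) N :=
            (K.hol i j).mono fun y hy => ⟨hN3 hy, ((hN4 y hy).2 j hj.1 hj.2).1⟩
          exact e2.restrict_scalars ℝ
        exact (hvs j).comp e1 fun y hy => hKW j (hbc j ((hN4 y hy).2 j hj.1 hj.2).2)
      · have e0 : (fun y => R2_T' K v M x0 ((K.e i).symm y) j) = fun _ => -M := by
          funext y
          unfold R2_T'
          rw [if_neg hj]
        rw [e0]
        exact contDiffOn_const
    · intro j y hy ξ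
      have hρi : ContDiffAt ℝ 2 (K.ρ i) y :=
        ((K.ρ_smooth i).contDiffAt ((K.e i).open_target.mem_nhds (hN3 hy))).of_le (WithTop.coe_le_coe.2 le_top)
      by_cases hj : x0 ∈ (K.e j).source ∧ K.e j x0 ∈ bal (K.c j) (K.R j)
      · have e0 : (fun y => R2_T' K v M x0 ((K.e i).symm y) j + K.ρ i y) =
            fun y => v j (K.e j ((K.e i).symm y)) + K.ρ i y := by
          funext y
          unfold R2_T'
          rw [if_pos hj]
        rw [e0]
        have e2 : ContDiffOn ℂ ∞ (fun y => K.e j ((K.e i).symm y)) N :=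
          (K.hol i j).mono fun y hy => ⟨hN3 hy, ((hN4 y hy).2 j hj.1 hj.2).1⟩
        have e1 : ContDiffOn ℝ ∞ (fun y => K.e j ((K.e i).symm y)) N := e2.restrict_scalars ℝ
        have hmW : MapsTo (fun y => K.e j ((K.e i).symm y)) N (W j) := fun y hy =>
          hKW j (hbc j ((hN4 y hy).2 j hj.1 hj.2).2)
        have hvF : ContDiffAt ℝ 2 (fun y => v j (K.e j ((K.e i).symm y))) y :=
          ((((hvs j).comp e1 hmW).contDiffAt (hN1.mem_nhds hy))).of_le (WithTop.coe_le_coe.2 le_top)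
        have hρF : ContDiffAt ℝ 2 (fun y => K.ρ j (K.e j ((K.e i).symm y))) y :=
          (((((K.ρ_smooth j).mono (hWt j)).comp e1 hmW).contDiffAt (hN1.mem_nhds hy))).of_le
            (WithTop.coe_le_coe.2 le_top)
        have hcomp := K.compat i j y (hN3 hy) ((hN4 y hy).2 j hj.1 hj.2).1 ξ
        have a1 := hA6.1 (W j) N (fun y => K.e j ((K.e i).symm y)) (fun z => K.ρ j z + v j z) (hWo j) hN1
          (e2.of_le (WithTop.coe_le_coe.2 le_top)) hmW
          ((((K.ρ_smooth j).mono (hWt j)).add (hvs j)).of_le (WithTop.coe_le_coe.2 le_top)) y hy ξ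
        have a2 := hvl j _ (hmW hy) (fderiv ℂ (fun y => K.e j ((K.e i).symm y)) y ξ)
        rw [← a1] at a2
        rw [R2_lap_add _ _ y ξ hρF hvF, hcomp] at a2
        rw [R2_lap_add _ _ y ξ hvF hρi]
        linarith
      · have e0 : (fun y => R2_T' K v M x0 ((K.e i).symm y) j + K.ρ i y) = fun y => -M + K.ρ i y := by
          funext y
          unfold R2_T'
          rw [if_neg hj]
        rw [e0, R2_lap_const_add]
        by_cases hξ : ξ = 0
        · have h0 : lap (K.ρ i) y 0 = 0 := by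
            have := S5_lap_smul (K.ρ i) y 0 0
            simpa using this
          rw [hξ, h0]
        · exact (K.ρ_pos i _ (hN3 hy) ξ hξ).le
  have hsm : K.Smo h := by
    apply hloc
    intro x0
    obtain ⟨i, hi, -⟩ := K.cover x0
    obtain ⟨N, hN1, hN2, hN3, hN4, hN5, -⟩ := hvec x0 i hi
    refine ⟨i, hi, N, hN1.mem_nhds hN2, ?_⟩
    have e1 : ContDiffOn ℝ ∞ (fun y => m (R2_T' K v M x0 ((K.e i).symm y))) N :=
      hms.comp_contDiffOn (contDiffOn_pi.2 hN5)
    exact e1.congr fun y hy => hN4 y hy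
  refine ⟨h, hPS h hsm ?_, ?_⟩
  · intro x0
    obtain ⟨i, hi, -⟩ := K.cover x0
    obtain ⟨N, hN1, hN2, hN3, hN4, hN5, hN6⟩ := hvec x0 i hi
    refine ⟨i, hi, fun ξ => ?_⟩
    have e0 : K.pot i h =ᶠ[𝓝 (K.e i x0)]
        fun y => m (fun j => R2_T' K v M x0 ((K.e i).symm y) j + K.ρ i y) := by
      filter_upwards [hN1.mem_nhds hN2] with y hy
      show K.ρ i y + h ((K.e i).symm y) = m (fun j => R2_T' K v M x0 ((K.e i).symm y) j + K.ρ i y)
      rw [hm3, hN4 y hy]
      ring
    rw [R2_lap_congr e0]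
    have hρN : ContDiffOn ℝ ∞ (K.ρ i) N := (K.ρ_smooth i).mono hN3
    have hgs : ∀ j, ContDiffOn ℝ ∞ (fun y => R2_T' K v M x0 ((K.e i).symm y) j + K.ρ i y) N := fun j =>
      (hN5 j).add hρN
    have hgp : ∀ j, PshOn N (fun y => R2_T' K v M x0 ((K.e i).symm y) j + K.ρ i y) := fun j =>
      (hA3.2 N _ hN1 ((hgs j).of_le (WithTop.coe_le_coe.2 le_top))).2 (hN6 j)
    have hJ := R2_jensen m hms.continuous hmc hmm N _ hgp
    have hJs : ContDiffOn ℝ ∞ (fun y => m (fun j => R2_T' K v M x0 ((K.e i).symm y) j + K.ρ i y)) N :=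
      hms.comp_contDiffOn (contDiffOn_pi.2 hgs)
    exact (hA3.2 N _ hN1 (hJs.of_le (WithTop.coe_le_coe.2 le_top))).1 hJ _ hN2 ξ
  · intro x
    refine ⟨?_, ?_⟩
    · intro i hi1 hi2
      have e1 := hm1 (R2_T K v M x) i
      have e2 : R2_T K v M x i = v i (K.e i x) := by
        unfold R2_T
        rw [if_pos ⟨hi1, hi2⟩]
      rw [e2] at e1
      exact e1
    · have e1 : h x = m (R2_T' K v M x x) := (hrep x).self_of_nhds.1
      obtain ⟨i, hi⟩ := hm2 (R2_T' K v M x x)
      by_cases hA : x ∈ (K.e i).source ∧ K.e i x ∈ bal (K.c i) (K.R i)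
      · refine ⟨i, hA.1, hA.2, ?_⟩
        have e2 : R2_T' K v M x x i = v i (K.e i x) := by
          unfold R2_T'
          rw [if_pos hA]
        rw [e1]
        rw [e2] at hi
        exact hi
      · obtain ⟨k, hk1, hk2⟩ := hcov x
        refine ⟨k, hk1, hk2, ?_⟩
        have e2 : R2_T' K v M x x i = -M := by
          unfold R2_T'
          rw [if_neg hA]
        have e3 := hMb k _ (hbc k hk2)
        rw [e1]
        rw [e2] at hi
        linarith

end

end MAP
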