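import Mathlib
import Pool.Agent.helper50.MA.Spec2
import Pool.Agent.helper43.MA.S5
import Pool.Agent.helper4.MA.C2

/-!
# Project ma, module R3: Richberg's theorem (regularisation of continuous omega-psh functions).
-/

set_option autoImplicit false

open MeasureTheory Set Filter Topology Complex
open scoped ContDiff Real

namespace MAP

noncomputable section

theorem R3_small {n : ℕ} (a : Fin n → ℝ) (ha : ∀ i, 0 < a i) (b : ℝ) (hb : 0 < b) :
    ∃ η : ℝ, 0 < η ∧ η ≤ b ∧ ∀ i, η ≤ a i := by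
  have h1 : ∀ᶠ η : ℝ in 𝓝[>] 0, ∀ i, η ≤ a i := by
    apply eventually_all.2
    intro i
    filter_upwards [Ioc_mem_nhdsGT (ha i)] with η hη using hη.2
  have h2 : ∀ᶠ η : ℝ in 𝓝[>] 0, η ≤ b := by
    filter_upwards [Ioc_mem_nhdsGT hb] with η hη using hη.2
  have h3 : ∀ᶠ η : ℝ in 𝓝[>] 0, 0 < η := by
    filter_upwards [self_mem_nhdsWithin] with η hη using hη
  obtain ⟨η, e1, e2, e3⟩ := (h1.and (h2.and h3)).exists
  exact ⟨η, e3, e2, e1⟩

theorem R3_nsq_smooth (z : C2) : ContDiff ℝ ∞ (fun y : C2 => nsq (y - z)) := by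
  unfold nsq
  exact ((contDiff_fst.comp (contDiff_id.sub contDiff_const)).norm_sq ℝ).add
    ((contDiff_snd.comp (contDiff_id.sub contDiff_const)).norm_sq ℝ)

/-- the function `t ρ + κ (c - nsq (· - z))` is psh where `κ lap (nsq (· - z)) ≤ t lap ρ` -/
theorem R3_quad (h3 : A3_stmt) (U : Set C2) (hU : IsOpen U) (ρ : C2 → ℝ) (hρ : ContDiffOn ℝ ∞ ρ U)
    (z : C2) (t κ c : ℝ)
    (h : ∀ y ∈ U, ∀ ξ : C2, κ * lap (fun y => nsq (y - z)) y ξ ≤ t * lap ρ y ξ) :
    PshOn U (fun y => t * ρ y + κ * (c - nsq (y - z))) := by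
  have hn := R3_nsq_smooth z
  have hg : ContDiff ℝ ∞ (fun y : C2 => c - nsq (y - z)) := contDiff_const.sub hn
  have hs : ContDiffOn ℝ ∞ (fun y => t * ρ y + κ * (c - nsq (y - z))) U :=
    (contDiffOn_const.mul hρ).add (contDiffOn_const.mul hg.contDiffOn)
  apply (h3.2 U _ hU (hs.of_le (WithTop.coe_le_coe.2 le_top))).2
  intro y hy ξ
  have hρy : ContDiffAt ℝ 2 ρ y := (hρ.contDiffAt (hU.mem_nhds hy)).of_le (WithTop.coe_le_coe.2 le_top)
  have hny : ContDiffAt ℝ 2 (fun y : C2 => nsq (y - z)) y :=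
    (hn.of_le (WithTop.coe_le_coe.2 le_top)).contDiffAt
  have hgy : ContDiffAt ℝ 2 (fun y : C2 => c - nsq (y - z)) y :=
    (hg.of_le (WithTop.coe_le_coe.2 le_top)).contDiffAt
  have hcy : ContDiffAt ℝ 2 (fun _ : C2 => (1 : ℝ)) y := contDiffAt_const
  have e1 : lap (fun y => t * ρ y + κ * (c - nsq (y - z))) y ξ
      = t * lap ρ y ξ + κ * lap (fun y => c - nsq (y - z)) y ξ :=
    C2_lapcomb ρ (fun y => c - nsq (y - z)) y t κ hρy hgy ξ
  have e2 : lap (fun y => c - nsq (y - z)) y ξ = - lap (fun y => nsq (y - z)) y ξ := by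
    have e3 : (fun y : C2 => c - nsq (y - z)) = fun y => c * (fun _ : C2 => (1 : ℝ)) y + (-1) * (fun y => nsq (y - z)) y := by
      funext y
      ring
    rw [e3, C2_lapcomb (fun _ => 1) (fun y => nsq (y - z)) y c (-1) hcy hny ξ]
    have e4 : lap (fun _ : C2 => (1 : ℝ)) y ξ = 0 := by
      unfold lap D2
      have e5 : fderiv ℝ (fun _ : C2 => (1 : ℝ)) = fun _ => 0 := by
        funext y
        exact fderiv_const_apply 1
      rw [e5]
      simp
    rw [e4]
    ring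
  rw [e1, e2]
  have := h y hy ξ
  linarith

theorem R3 (hR2 : R2_stmt) (h1 : A1_stmt) (h3 : A3_stmt) (h5 : A5_stmt) : R3_stmt := by
  intro X _ _ _ K f hf ε hε
  -- bound of f
  obtain ⟨B0, hB0⟩ : ∃ B0 : ℝ, ∀ x, |f x| ≤ B0 := by
    obtain ⟨C, hC⟩ := (isCompact_univ (X := X)).exists_bound_of_continuousOn hf.1.continuousOn
    exact ⟨C, fun x => hC x (mem_univ x)⟩
  set B : ℝ := max B0 0 with hB
  have hB1 : ∀ x, |f x| ≤ B := fun x => (hB0 x).trans (le_max_left _ _)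
  have hB2 : 0 ≤ B := le_max_right _ _
  obtain ⟨t, ht0, ht1, htB⟩ : ∃ t : ℝ, 0 < t ∧ t ≤ 1 ∧ t * B ≤ ε / 4 := by
    refine ⟨min 1 (ε / (4 * (B + 1))), lt_min one_pos (by positivity), min_le_left _ _, ?_⟩
    calc min 1 (ε / (4 * (B + 1))) * B ≤ ε / (4 * (B + 1)) * B :=
          mul_le_mul_of_nonneg_right (min_le_right _ _) hB2
      _ ≤ ε / (4 * (B + 1)) * (B + 1) := mul_le_mul_of_nonneg_left (by linarith) (by positivity)
      _ = ε / 4 := by field_simp
  -- shrunken charts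
  have hL : ∀ i, ∃ L : Set C2, IsCompact L ∧ cbal (K.c i) (K.R i) ⊆ interior L ∧ L ⊆ (K.e i).target := fun i =>
    exists_compact_between (S5_cbal_compact _ _) (K.e i).open_target (K.ball_sub i)
  choose L hLc hL1 hL2 using hL
  have hcmp : ∀ i, ∃ c : ℝ, 0 ≤ c ∧ ∀ y ∈ L i, ∀ ξ : C2,
      |lap (fun y => nsq (y - K.c i)) y ξ| ≤ c * lap (K.ρ i) y ξ := fun i =>
    S5_cmp (K.e i).target (L i) (K.e i).open_target (hLc i) (hL2 i) (K.ρ i) (fun y => nsq (y - K.c i))
      (K.ρ_smooth i) (R3_nsq_smooth _).contDiffOn (K.ρ_pos i)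
  choose C hC0 hC1 using hcmp
  -- κ
  obtain ⟨κ, hκ0, -, hκ⟩ := R3_small (fun i => min (t / (C i + 1)) (ε / (4 * (K.R i) ^ 2)))
    (fun i => lt_min (div_pos ht0 (by linarith [hC0 i])) (by have := K.R_pos i; positivity)) 1 one_pos
  have hκ1 : ∀ i, κ * C i ≤ t := by
    intro i
    have e1 : κ ≤ t / (C i + 1) := (hκ i).trans (min_le_left _ _)
    have e2 : 0 < C i + 1 := by linarith [hC0 i]
    rw [le_div_iff₀ e2] at e1
    nlinarith
  have hκ2 : ∀ i, κ * (K.R i) ^ 2 ≤ ε / 4 := by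
    intro i
    have e1 : κ ≤ ε / (4 * (K.R i) ^ 2) := (hκ i).trans (min_le_right _ _)
    have e2 : 0 < 4 * (K.R i) ^ 2 := by have := K.R_pos i; positivity
    rw [le_div_iff₀ e2] at e1
    linarith
  -- η
  obtain ⟨η, hη0, hη1, hη2⟩ := R3_small (fun i => κ * (K.R i) ^ 2 / 16)
    (fun i => by have := K.R_pos i; positivity) (ε / 8) (by positivity)
  -- the local functions
  have hu : ∀ i, PshOn (interior (L i)) (fun y => (1 - t) * K.pot i f y +
      (t * K.ρ i y + κ * (5 / 8 * (K.R i) ^ 2 - nsq (y - K.c i)))) := by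
    intro i
    have hsub : interior (L i) ⊆ (K.e i).target := interior_subset.trans (hL2 i)
    have e1 : PshOn (interior (L i)) (K.pot i f) :=
      (h1 (K.e i).target (K.e i).open_target _ _ (hf.2 i) (hf.2 i)).2.2.2.2.1 _ hsub
    have e2 : PshOn (interior (L i)) (fun y => (1 - t) * K.pot i f y) :=
      (h1 (interior (L i)) isOpen_interior _ _ e1 e1).2.2.1 (1 - t) (by linarith)
    have e3 : PshOn (interior (L i)) (fun y => t * K.ρ i y + κ * (5 / 8 * (K.R i) ^ 2 - nsq (y - K.c i))) := by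
      apply R3_quad h3 (interior (L i)) isOpen_interior (K.ρ i) ((K.ρ_smooth i).mono hsub)
      intro y hy ξ
      have a1 := hC1 i y (interior_subset hy) ξ
      have a2 : lap (fun y => nsq (y - K.c i)) y ξ ≤ C i * lap (K.ρ i) y ξ := (le_abs_self _).trans a1
      have a3 : 0 ≤ lap (K.ρ i) y ξ := by
        by_cases hξ : ξ = 0
        · have h0 : lap (K.ρ i) y 0 = 0 := by
            have := S5_lap_smul (K.ρ i) y 0 0
            simpa using this
          rw [hξ, h0]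
        · exact (K.ρ_pos i _ (hsub hy) ξ hξ).le
      calc κ * lap (fun y => nsq (y - K.c i)) y ξ ≤ κ * (C i * lap (K.ρ i) y ξ) :=
            mul_le_mul_of_nonneg_left a2 hκ0.le
        _ = (κ * C i) * lap (K.ρ i) y ξ := by ring
        _ ≤ t * lap (K.ρ i) y ξ := mul_le_mul_of_nonneg_right (hκ1 i) a3
    exact (h1 (interior (L i)) isOpen_interior _ _ e2 e3).2.1
  have hw := fun i => h5 (interior (L i)) (cbal (K.c i) (K.R i)) _ η isOpen_interior (hu i)
    (S5_cbal_compact _ _) (hL1 i) hη0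
  choose w V hws hVo hKV hVL hwp hwd using hw
  have hVt : ∀ i, V i ⊆ (K.e i).target := fun i => (hVL i).trans (interior_subset.trans (hL2 i))
  set v : Fin K.n → C2 → ℝ := fun i y => w i y - K.ρ i y with hv
  -- estimate
  have hest : ∀ i, ∀ x ∈ (K.e i).source, K.e i x ∈ V i →
      |v i (K.e i x) - ((1 - t) * f x + κ * (5 / 8 * (K.R i) ^ 2 - nsq (K.e i x - K.c i)))| ≤ η := by
    intro i x hx hxV
    have e1 := hwd i (K.e i x) hxV
    have e2 : (K.e i).symm (K.e i x) = x := (K.e i).left_inv hx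
    have e3 : v i (K.e i x) - ((1 - t) * f x + κ * (5 / 8 * (K.R i) ^ 2 - nsq (K.e i x - K.c i))) =
        w i (K.e i x) - ((1 - t) * K.pot i f (K.e i x) +
          (t * K.ρ i (K.e i x) + κ * (5 / 8 * (K.R i) ^ 2 - nsq (K.e i x - K.c i)))) := by
      show w i (K.e i x) - K.ρ i (K.e i x) - _ = w i (K.e i x) - ((1 - t) * (K.ρ i (K.e i x) + f ((K.e i).symm (K.e i x))) + _)
      rw [e2]
      ring
    rw [e3]
    exact e1
  have hbal : ∀ i, bal (K.c i) (K.R i / 2) ⊆ bal (K.c i) (K.R i) := by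
    intro i y hy
    have e1 : nsq (y - K.c i) < (K.R i / 2) ^ 2 := hy
    have e2 := K.R_pos i
    show nsq (y - K.c i) < (K.R i) ^ 2
    nlinarith
  have hcb : ∀ i, bal (K.c i) (K.R i) ⊆ cbal (K.c i) (K.R i) := by
    intro i y hy
    have e1 : nsq (y - K.c i) < (K.R i) ^ 2 := hy
    exact e1.le
  -- lower estimate on the half balls
  have hlow : ∀ j, ∀ x ∈ (K.e j).source, K.e j x ∈ bal (K.c j) (K.R j / 2) →
      (1 - t) * f x + 3 / 8 * (κ * (K.R j) ^ 2) - η < v j (K.e j x) := by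
    intro j x hx hxb
    have e1 := (abs_le.1 (hest j x hx (hKV j (hcb j (hbal j hxb))))).1
    have e2 : nsq (K.e j x - K.c j) < (K.R j / 2) ^ 2 := hxb
    have e3 : κ * nsq (K.e j x - K.c j) < κ * (K.R j / 2) ^ 2 := mul_lt_mul_of_pos_left e2 hκ0
    nlinarith
  obtain ⟨h, hPS, hh⟩ := hR2 X K V v η hη0 hVo hKV hVt
    (fun i => (hws i).contDiffOn.sub ((K.ρ_smooth i).mono (hVt i)))
    (by
      intro i y hy ξ
      have e1 : (fun z => K.ρ i z + v i z) = w i := by
        funext z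
        show K.ρ i z + (w i z - K.ρ i z) = w i z
        ring
      rw [e1]
      exact (h3.2 (V i) (w i) (hVo i) ((hws i).of_le (WithTop.coe_le_coe.2 le_top)).contDiffOn).1 (hwp i) y hy ξ)
    (by
      intro i x hx hxs
      obtain ⟨j, hjx, hjb⟩ := K.cover x
      refine ⟨j, hjx, hbal j hjb, ?_⟩
      have e0 : nsq (K.e i x - K.c i) = (K.R i) ^ 2 := hxs
      have e1 := (abs_le.1 (hest i x hx (hKV i (by exact e0.le)))).2
      rw [e0] at e1
      have e2 := hlow j x hjx hjb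
      have e3 : η ≤ κ * (K.R i) ^ 2 / 16 := hη2 i
      have e4 : 0 < κ * (K.R j) ^ 2 := by have := K.R_pos j; positivity
      nlinarith)
  refine ⟨h, hPS, fun x => ?_⟩
  obtain ⟨hx1, i, hix, hib, hx2⟩ := hh x
  have hf1 := abs_le.1 (hB1 x)
  have htf : |t * f x| ≤ ε / 4 := by
    rw [abs_mul, abs_of_pos ht0]
    exact (mul_le_mul_of_nonneg_left (hB1 x) ht0.le).trans htB
  have htf' := abs_le.1 htf
  rw [abs_le]
  constructor
  · obtain ⟨j, hjx, hjb⟩ := K.cover x
    have e1 := hx1 j hjx (hcb j (hbal j hjb))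
    have e2 := hlow j x hjx hjb
    have e4 : 0 < κ * (K.R j) ^ 2 := by have := K.R_pos j; positivity
    linarith [htf'.1, htf'.2]
  · have e1 := (abs_le.1 (hest i x hix (hKV i (hcb i hib)))).2
    have e2 : 0 ≤ nsq (K.e i x - K.c i) := by unfold nsq; positivity
    have e3 : 0 ≤ κ * nsq (K.e i x - K.c i) := mul_nonneg hκ0.le e2
    have e4 := hκ2 i
    have e5 : κ * (5 / 8 * (K.R i) ^ 2 - nsq (K.e i x - K.c i)) ≤ 5 / 8 * (ε / 4) := by nlinarith
    linarith [htf'.1, htf'.2]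

end

end MAP
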