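import Pool.Agent.helper37.MA.Spec

/-!
# CHS (project MA)
-/

set_option autoImplicit false

namespace Pool.Agent.helper37.MA

open Finset Pool.Agent.NK Pool.Agent.helper37.NF

theorem CHS_one (h : HYP_stmt) {m a b k : ℕ} (hm : 4 ≤ m) (ha : m ≤ a) (hb : m ≤ b)
    (hk : 2 * k ≤ a + b) {i j : ℕ} (hij : i + j ≤ k) (ht : ¬ i + j ≤ (a + b) / 4) :
    m * (a.choose i * b.choose j) ^ 2 ≤ 8 * ((a + b).choose (i + j)) ^ 2 := by
  rcases le_total a b with hab | hab
  · have h1 := h a b (i + j) i (by omega) hab (by omega) (by omega) (by omega)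
    unfold ff at h1
    rw [Nat.add_sub_cancel_left] at h1
    exact le_trans (Nat.mul_le_mul_right _ ha) h1
  · have h1 := h b a (i + j) j (by omega) hab (by omega) (by omega) (by omega)
    unfold ff at h1
    rw [Nat.add_sub_cancel, add_comm b a, mul_comm (b.choose j)] at h1
    exact le_trans (Nat.mul_le_mul_right _ hb) h1

theorem CHS_two (a b i j : ℕ) : a.choose i * b.choose j ≤ (a + b).choose (i + j) := by
  rw [Nat.add_choose_eq]
  exact Finset.single_le_sum (f := fun ij : ℕ × ℕ => a.choose ij.1 * b.choose ij.2)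
    (fun _ _ => Nat.zero_le _) (mem_antidiagonal.2 (rfl : (i, j).1 + (i, j).2 = i + j))

theorem CHS_sum {C : Finset (ℕ × ℕ)} {k : ℕ} (hC : ∀ c ∈ C, c.1 + c.2 ≤ k) (hch : IsCh C)
    (g : ℕ → ℝ) (hg : ∀ t, 0 ≤ g t) : ∑ c ∈ C, g (c.1 + c.2) ≤ ∑ t ∈ range (k + 1), g t := by
  classical
  have hinj : ∀ c ∈ C, ∀ d ∈ C, c.1 + c.2 = d.1 + d.2 → c = d := by
    intro c hc d hd he
    by_contra hne
    rcases hch c hc d hd hne with ⟨h1, h2⟩ | ⟨h1, h2⟩
    · omega
    · omega
  rw [← Finset.sum_image (f := g) (g := fun c : ℕ × ℕ => c.1 + c.2)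
    (fun c hc d hd he => hinj c hc d hd he)]
  refine Finset.sum_le_sum_of_subset_of_nonneg ?_ fun t _ _ => hg t
  intro t ht
  obtain ⟨c, hc, rfl⟩ := mem_image.1 ht
  rw [mem_range]
  have := hC c hc
  show c.1 + c.2 < k + 1
  omega

theorem CHS (h : HYP_stmt) : CHS_stmt := by
  classical
  intro m a b k C hm ha hb hk hC hch
  have hm0 : (0 : ℝ) < (m : ℝ) := by
    have h1 : (4 : ℝ) ≤ (m : ℝ) := by exact_mod_cast hm
    linarith
  have hpt : ∀ c ∈ C, ((a.choose c.1 * b.choose c.2 : ℕ) : ℝ) ≤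
      Real.sqrt (8 / m) * ((a + b).choose (c.1 + c.2) : ℝ) +
        (if c.1 + c.2 ≤ (a + b) / 4 then ((a + b).choose (c.1 + c.2) : ℝ) else 0) := by
    intro c hc
    have h0 : 0 ≤ Real.sqrt (8 / m) * ((a + b).choose (c.1 + c.2) : ℝ) := by positivity
    by_cases ht : c.1 + c.2 ≤ (a + b) / 4
    · rw [if_pos ht]
      have h1 : ((a.choose c.1 * b.choose c.2 : ℕ) : ℝ) ≤ ((a + b).choose (c.1 + c.2) : ℝ) := by
        exact_mod_cast CHS_two a b c.1 c.2
      linarith
    · rw [if_neg ht, add_zero]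
      have h1 := CHS_one h hm ha hb hk (hC c hc).2.2 ht
      rw [← pow_le_pow_iff_left₀ (Nat.cast_nonneg _) h0 two_ne_zero, mul_pow,
        Real.sq_sqrt (by positivity), div_mul_eq_mul_div, le_div_iff₀ hm0]
      have h2 : ((m * (a.choose c.1 * b.choose c.2) ^ 2 : ℕ) : ℝ) ≤
          ((8 * ((a + b).choose (c.1 + c.2)) ^ 2 : ℕ) : ℝ) := by exact_mod_cast h1
      push_cast at h2 ⊢
      linarith
  have hCk : ∀ c ∈ C, c.1 + c.2 ≤ k := fun c hc => (hC c hc).2.2
  have e1 := CHS_sum hCk hch (fun t => Real.sqrt (8 / m) * ((a + b).choose t : ℝ))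
    (fun t => by positivity)
  have e2 := CHS_sum hCk hch
    (fun t => if t ≤ (a + b) / 4 then ((a + b).choose t : ℝ) else 0) (fun t => by
      split_ifs
      · positivity
      · exact le_refl _)
  have e3 : ∑ t ∈ range (k + 1), (if t ≤ (a + b) / 4 then ((a + b).choose t : ℝ) else 0) ≤
      ∑ t ∈ range ((a + b) / 4 + 1), ((a + b).choose t : ℝ) := by
    rw [← Finset.sum_filter]
    refine Finset.sum_le_sum_of_subset_of_nonneg ?_ fun t _ _ => Nat.cast_nonneg _
    intro t ht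
    rw [mem_filter] at ht
    rw [mem_range]
    omega
  have e4 := Finset.sum_le_sum hpt
  rw [Finset.sum_add_distrib] at e4
  rw [Nat.cast_sum, Nat.cast_sum, Nat.cast_sum, mul_sum]
  linarith

end Pool.Agent.helper37.MA
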